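import Mathlib

/-!
# Lipschitz interpolation of `L^γ[0,1]` between `L^β[0,1]` and `L^α[0,1]`

For a level `t > 0` split `x - y` at height `t / (2 M)` and approximate `y` by elements of `L^α`; the
Lipschitz conditions and the Chebyshev inequality bound the measure of `{|Ux - Uy| > t}`, and the
layer cake formula gives the inequality in `L^γ`.
-/

set_option autoImplicit false

open MeasureTheory Set ENNReal NNReal Filter Topology

namespace Pool.Agent.Results.MP_6e3e44_an.LipschitzInterpolation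

/-- Lebesgue measure on `[0,1]`. -/
noncomputable abbrev lam : Measure ℝ := volume.restrict (Icc 0 1)

/-- The space `L^p[0,1]` of complex-valued functions. -/
noncomputable abbrev L (p : ℝ) := Lp ℂ (ENNReal.ofReal p) lam

/-- `U` maps `L^p` into `L^p` and satisfies `‖U x - U y‖_p ≤ M ‖x - y‖_p` for all `x, y` in
`L^p`. -/
def LipschitzIn {β : ℝ} (U : L β → L β) (p : ℝ) (M : ℝ≥0) : Prop :=
  (∀ x : L β, MemLp x (ENNReal.ofReal p) lam → MemLp (U x) (ENNReal.ofReal p) lam) ∧
  ∀ x y : L β, MemLp x (ENNReal.ofReal p) lam → MemLp y (ENNReal.ofReal p) lam →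
    eLpNorm (U x - U y : L β) (ENNReal.ofReal p) lam ≤
      M * eLpNorm (x - y : L β) (ENNReal.ofReal p) lam

/-- `L^γ` is a Lipschitz interpolation space with constant `C` between `L^β` and `L^α`. -/
def IsLipschitzInterpolationSpace (β γ α : ℝ) (C : ℝ≥0) : Prop :=
  ∀ (U : L β → L β) (M₀ M₁ : ℝ≥0), LipschitzIn U β M₀ → LipschitzIn U α M₁ →
    LipschitzIn U γ (C * max M₀ M₁)

section integrals

theorem lint_Ioo (r u : ℝ) (hr : -1 < r) (hu : 0 < u) :
    ∫⁻ t in Ioo 0 u, ENNReal.ofReal (t ^ r) = ENNReal.ofReal (u ^ (r + 1) / (r + 1)) := by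
  rw [← ofReal_integral_eq_lintegral_ofReal]
  · rw [← integral_Ioc_eq_integral_Ioo, ← intervalIntegral.integral_of_le hu.le,
      integral_rpow (Or.inl hr), Real.zero_rpow (by linarith), sub_zero]
  · exact (intervalIntegral.integrableOn_Ioo_rpow_iff hu).2 hr
  · filter_upwards [self_mem_ae_restrict measurableSet_Ioo] with t ht
    exact Real.rpow_nonneg ht.1.le r

theorem lint_Ioi (r u : ℝ) (hr : r < -1) (hu : 0 < u) :
    ∫⁻ t in Ioi u, ENNReal.ofReal (t ^ r) = ENNReal.ofReal (-u ^ (r + 1) / (r + 1)) := by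
  rw [← ofReal_integral_eq_lintegral_ofReal]
  · rw [integral_Ioi_rpow_of_lt hr hu]
  · exact integrableOn_Ioi_rpow_of_lt hr hu
  · filter_upwards [self_mem_ae_restrict measurableSet_Ioi] with t ht
    exact Real.rpow_nonneg (hu.trans ht).le r

/-- the bound for the measure of the set where the function is larger than `t` -/
noncomputable def G (b a t u : ℝ) : ℝ≥0∞ :=
  if t < u then ENNReal.ofReal ((u / t) ^ b) else ENNReal.ofReal ((u / t) ^ a)

theorem measurable_G (b a : ℝ) : Measurable (fun p : ℝ × ℝ => G b a p.1 p.2) := by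
  unfold G
  refine Measurable.ite (measurableSet_lt measurable_fst measurable_snd) ?_ ?_
  · exact ((measurable_snd.div measurable_fst).pow_const b).ennreal_ofReal
  · exact ((measurable_snd.div measurable_fst).pow_const a).ennreal_ofReal

theorem inner_int (b c a u : ℝ) (hb : 0 < b) (hbc : b < c) (hca : c < a) (hu : 0 ≤ u) :
    ∫⁻ t in Ioi 0, G b a t u * ENNReal.ofReal (t ^ (c - 1)) ≤
      ENNReal.ofReal ((1 / (c - b) + 1 / (a - c)) * u ^ c) := by
  rcases hu.eq_or_lt with rfl | hu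
  · have h0 : ∫⁻ t in Ioi (0 : ℝ), G b a t 0 * ENNReal.ofReal (t ^ (c - 1)) = 0 := by
      rw [setLIntegral_congr_fun (g := fun _ => 0) measurableSet_Ioi, lintegral_zero]
      intro t ht
      have ht' : (0 : ℝ) < t := ht
      simp only [G, not_lt.2 ht'.le, if_false, zero_div, Real.zero_rpow (by linarith : a ≠ 0),
        ENNReal.ofReal_zero, zero_mul]
    rw [h0]
    exact bot_le
  have hsplit : Ioi (0 : ℝ) = Ioo 0 u ∪ Ici u := (Ioo_union_Ici_eq_Ioi hu).symm
  rw [hsplit]
  calc ∫⁻ t in Ioo 0 u ∪ Ici u, G b a t u * ENNReal.ofReal (t ^ (c - 1))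
      ≤ (∫⁻ t in Ioo 0 u, G b a t u * ENNReal.ofReal (t ^ (c - 1))) +
        ∫⁻ t in Ici u, G b a t u * ENNReal.ofReal (t ^ (c - 1)) := lintegral_union_le _ _ _
    _ = ENNReal.ofReal (u ^ b) * (∫⁻ t in Ioo 0 u, ENNReal.ofReal (t ^ (c - 1 - b))) +
        ENNReal.ofReal (u ^ a) * ∫⁻ t in Ioi u, ENNReal.ofReal (t ^ (c - 1 - a)) := by
        congr 1
        · rw [← lintegral_const_mul']
          · refine setLIntegral_congr_fun measurableSet_Ioo fun t ht => ?_
            have ht0 : 0 < t := ht.1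
            simp only [G, if_pos ht.2]
            rw [← ENNReal.ofReal_mul (by positivity), ← ENNReal.ofReal_mul (by positivity)]
            congr 1
            rw [Real.div_rpow hu.le ht0.le, Real.rpow_sub ht0 (c - 1) b, div_mul_eq_mul_div,
              mul_div_assoc]
          · exact ENNReal.ofReal_ne_top
        · rw [setLIntegral_congr (Ioi_ae_eq_Ici (a := u)).symm, ← lintegral_const_mul']
          · refine setLIntegral_congr_fun measurableSet_Ioi fun t ht => ?_
            have ht' : u < t := ht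
            have ht0 : 0 < t := hu.trans ht'
            simp only [G, if_neg (not_lt.2 ht'.le)]
            rw [← ENNReal.ofReal_mul (by positivity), ← ENNReal.ofReal_mul (by positivity)]
            congr 1
            rw [Real.div_rpow hu.le ht0.le, Real.rpow_sub ht0 (c - 1) a, div_mul_eq_mul_div,
              mul_div_assoc]
          · exact ENNReal.ofReal_ne_top
    _ = ENNReal.ofReal ((1 / (c - b) + 1 / (a - c)) * u ^ c) := by
        rw [lint_Ioo _ _ (by linarith) hu, lint_Ioi _ _ (by linarith) hu,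
          ← ENNReal.ofReal_mul (by positivity), ← ENNReal.ofReal_mul (by positivity),
          ← ENNReal.ofReal_add]
        · congr 1
          have h1 : u ^ b * u ^ (c - 1 - b + 1) = u ^ c := by
            rw [← Real.rpow_add hu]; congr 1; ring
          have h2 : u ^ a * u ^ (c - 1 - a + 1) = u ^ c := by
            rw [← Real.rpow_add hu]; congr 1; ring
          have h3 : c - 1 - a + 1 = -(a - c) := by ring
          have h4 : c - 1 - b + 1 = c - b := by ring
          rw [mul_div_assoc', h1, mul_div_assoc', mul_neg, h2, h3, h4, neg_div_neg_eq]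
          ring
        · have : (0:ℝ) < c - 1 - b + 1 := by linarith
          positivity
        · have : c - 1 - a + 1 < 0 := by linarith
          rw [neg_div, ← div_neg]
          have h5 : 0 < -(c - 1 - a + 1) := by linarith
          positivity

/-- The layer cake argument. -/
theorem core {Ω : Type} [MeasurableSpace Ω] (μ : Measure Ω) [SFinite μ] (b c a : ℝ) (hb : 0 < b)
    (hbc : b < c) (hca : c < a) (F u : Ω → ℝ) (hF : ∀ ω, 0 ≤ F ω) (hu : ∀ ω, 0 ≤ u ω)
    (hFm : AEMeasurable F μ) (hum : Measurable u)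
    (h : ∀ t : ℝ, 0 < t → μ {ω | t < F ω} ≤ ∫⁻ ω, G b a t (u ω) ∂μ) :
    ∫⁻ ω, ENNReal.ofReal (F ω ^ c) ∂μ ≤
      ENNReal.ofReal (c * (1 / (c - b) + 1 / (a - c))) * ∫⁻ ω, ENNReal.ofReal (u ω ^ c) ∂μ := by
  have hc : 0 < c := hb.trans hbc
  rw [lintegral_rpow_eq_lintegral_meas_lt_mul μ (Eventually.of_forall hF) hFm hc]
  have hpos : 0 ≤ 1 / (c - b) + 1 / (a - c) := by
    have h1 : 0 < c - b := by linarith
    have h2 : 0 < a - c := by linarith
    positivity
  calc ENNReal.ofReal c * ∫⁻ t in Ioi 0, μ {ω | t < F ω} * ENNReal.ofReal (t ^ (c - 1))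
      ≤ ENNReal.ofReal c * ∫⁻ t in Ioi (0 : ℝ), (∫⁻ ω, G b a t (u ω) ∂μ) *
          ENNReal.ofReal (t ^ (c - 1)) := by
        gcongr ENNReal.ofReal c * ?_
        refine setLIntegral_mono' measurableSet_Ioi fun t ht => ?_
        gcongr
        exact h t ht
    _ = ENNReal.ofReal c * ∫⁻ t in Ioi (0 : ℝ), (∫⁻ ω, G b a t (u ω) *
          ENNReal.ofReal (t ^ (c - 1)) ∂μ) := by
        congr 1
        refine lintegral_congr fun t => ?_
        rw [lintegral_mul_const' _ _ ENNReal.ofReal_ne_top]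
    _ = ENNReal.ofReal c * ∫⁻ ω, (∫⁻ t in Ioi (0 : ℝ), G b a t (u ω) *
          ENNReal.ofReal (t ^ (c - 1))) ∂μ := by
        congr 1
        rw [lintegral_lintegral_swap]
        refine Measurable.aemeasurable ?_
        refine Measurable.mul ?_ ?_
        · exact (measurable_G b a).comp (measurable_fst.prodMk (hum.comp measurable_snd))
        · exact (measurable_fst.pow_const (c - 1)).ennreal_ofReal
    _ ≤ ENNReal.ofReal c * ∫⁻ ω, ENNReal.ofReal ((1 / (c - b) + 1 / (a - c)) * u ω ^ c) ∂μ := by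
        gcongr ENNReal.ofReal c * ?_
        exact lintegral_mono fun ω => inner_int b c a (u ω) hb hbc hca (hu ω)
    _ = _ := by
        simp_rw [ENNReal.ofReal_mul hpos]
        rw [lintegral_const_mul' _ _ ENNReal.ofReal_ne_top, ENNReal.ofReal_mul hc.le, mul_assoc]

end integrals

section estimate

/-- Chebyshev's inequality. -/
theorem chebyshev (p : ℝ) (hp : 0 < p) (f : ℝ → ℂ) (hf : AEStronglyMeasurable f lam) (t : ℝ)
    (ht : 0 < t) :
    lam {ω | t / 2 ≤ ‖f ω‖} ≤
      ENNReal.ofReal ((2 / t) ^ p) * eLpNorm f (ENNReal.ofReal p) lam ^ p := by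
  have h := meas_ge_le_mul_pow_eLpNorm_enorm lam (p := ENNReal.ofReal p)
    (by simpa using hp) ENNReal.ofReal_ne_top hf (ε := ENNReal.ofReal (t / 2))
    (by simpa using ht) (fun h => absurd h ENNReal.ofReal_ne_top)
  rw [ENNReal.toReal_ofReal hp.le] at h
  have h1 : (ENNReal.ofReal (t / 2))⁻¹ ^ p = ENNReal.ofReal ((2 / t) ^ p) := by
    rw [← ENNReal.ofReal_inv_of_pos (by positivity), ENNReal.ofReal_rpow_of_nonneg
      (by positivity) hp.le, inv_div]
  rw [h1] at h
  refine le_trans (measure_mono ?_) h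
  intro ω hω
  have hω' : t / 2 ≤ ‖f ω‖ := hω
  show ENNReal.ofReal (t / 2) ≤ ‖f ω‖ₑ
  rw [← ofReal_norm]
  exact ENNReal.ofReal_le_ofReal hω'

theorem pow_int (p : ℝ) (hp : 0 < p) (z : ℝ → ℂ) (S : Set ℝ) (hS : MeasurableSet S) (t : ℝ)
    (ht : 0 < t) (M : ℝ≥0) :
    ENNReal.ofReal ((2 / t) ^ p) * (M * eLpNorm (S.indicator z) (ENNReal.ofReal p) lam) ^ p =
      ∫⁻ ω in S, ENNReal.ofReal ((2 * M * ‖z ω‖ / t) ^ p) ∂lam := by
  rw [eLpNorm_indicator_eq_eLpNorm_restrict hS, eLpNorm_eq_lintegral_rpow_enorm_toReal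
    (by simpa using hp) ENNReal.ofReal_ne_top, ENNReal.toReal_ofReal hp.le,
    ENNReal.mul_rpow_of_nonneg _ _ hp.le, ← ENNReal.rpow_mul, one_div_mul_cancel hp.ne',
    ENNReal.rpow_one, ← mul_assoc, ← lintegral_const_mul']
  · refine lintegral_congr fun ω => ?_
    rw [← ofReal_norm, ← ENNReal.ofReal_coe_nnreal, ENNReal.ofReal_rpow_of_nonneg
      (NNReal.coe_nonneg M) hp.le, ENNReal.ofReal_rpow_of_nonneg (norm_nonneg _) hp.le,
      ← ENNReal.ofReal_mul (by positivity), ← ENNReal.ofReal_mul (by positivity)]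
    congr 1
    rw [← Real.mul_rpow (by positivity) (by positivity), ← Real.mul_rpow (by positivity)
      (by positivity)]
    congr 1
    ring
  · refine ENNReal.mul_ne_top ENNReal.ofReal_ne_top ?_
    exact ENNReal.rpow_ne_top_of_nonneg hp.le ENNReal.coe_ne_top

theorem key (b a : ℝ) (hb : 1 ≤ b) (hba : b < a) (U : L b → L b) (M₀ M₁ M : ℝ≥0)
    (h0 : LipschitzIn U b M₀) (h1 : LipschitzIn U a M₁) (hM0 : M₀ ≤ M) (hM1 : M₁ ≤ M)
    (hM : 0 < M) (x y : L b) (t : ℝ) (ht : 0 < t) :
    lam {ω | t < ‖(U x - U y : L b) ω‖} ≤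
      ∫⁻ ω, G b a t (2 * M * ‖(x - y : L b) ω‖) ∂lam := by
  have hb0 : 0 < b := by linarith
  have ha0 : 0 < a := by linarith
  have hM' : (0 : ℝ) < M := hM
  have hpb : 1 ≤ ENNReal.ofReal b := by
    rw [← ENNReal.ofReal_one]
    exact ENNReal.ofReal_le_ofReal hb
  have hpa : 1 ≤ ENNReal.ofReal a := by
    rw [← ENNReal.ofReal_one]
    exact ENNReal.ofReal_le_ofReal (hb.trans hba.le)
  set z : ℝ → ℂ := ⇑(x - y) with hz
  have hzm : StronglyMeasurable z := Lp.stronglyMeasurable (x - y)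
  set A : Set ℝ := {ω | t < 2 * M * ‖z ω‖} with hA
  have hAm : MeasurableSet A := by
    refine measurableSet_lt measurable_const ?_
    exact (hzm.measurable.norm).const_mul _
  -- the right hand side
  have hrhs : ∫⁻ ω, G b a t (2 * M * ‖z ω‖) ∂lam =
      ENNReal.ofReal ((2 / t) ^ b) * (M * eLpNorm (A.indicator z) (ENNReal.ofReal b) lam) ^ b +
      ENNReal.ofReal ((2 / t) ^ a) * (M * eLpNorm (Aᶜ.indicator z) (ENNReal.ofReal a) lam) ^ a := by
    rw [← lintegral_add_compl _ hAm, pow_int b hb0 z A hAm t ht M,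
      pow_int a ha0 z Aᶜ hAm.compl t ht M]
    congr 1
    · refine setLIntegral_congr_fun hAm fun ω hω => ?_
      have hω' : t < 2 * M * ‖z ω‖ := hω
      simp only [G, if_pos hω']
    · refine setLIntegral_congr_fun hAm.compl fun ω hω => ?_
      have hω' : ¬ t < 2 * M * ‖z ω‖ := hω
      simp only [G, if_neg hω']
  rw [hrhs]
  -- the bounded part
  have hzbd : ∀ p : ℝ≥0∞, MemLp (Aᶜ.indicator z) p lam := by
    intro p
    refine MemLp.of_bound ((hzm.indicator hAm.compl).aestronglyMeasurable) (t / (2 * M))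
      (Eventually.of_forall fun ω => ?_)
    by_cases hω : ω ∈ Aᶜ
    · rw [indicator_of_mem hω]
      have hω' : ¬ t < 2 * M * ‖z ω‖ := hω
      rw [le_div_iff₀ (by positivity)]
      linarith [not_lt.1 hω']
    · rw [indicator_of_notMem hω, norm_zero]
      positivity
  set zm : L b := (hzbd (ENNReal.ofReal b)).toLp _ with hzmdef
  have hzm1 : zm =ᵐ[lam] Aᶜ.indicator z := MemLp.coeFn_toLp _
  -- the estimate with an approximation error
  have hδ : ∀ δ : ℝ≥0∞, 0 < δ → lam {ω | t < ‖(U x - U y : L b) ω‖} ≤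
      ENNReal.ofReal ((2 / t) ^ b) *
        (M * (eLpNorm (A.indicator z) (ENNReal.ofReal b) lam + 2 * δ)) ^ b +
      ENNReal.ofReal ((2 / t) ^ a) *
        (M * eLpNorm (Aᶜ.indicator z) (ENNReal.ofReal a) lam) ^ a := by
    intro δ hδ
    obtain ⟨g, hg, hgb⟩ := (Lp.memLp y).exists_simpleFunc_eLpNorm_sub_lt ENNReal.ofReal_ne_top
      hδ.ne'
    set y' : L b := hgb.toLp _ with hy'
    have hy'1 : y' =ᵐ[lam] g := MemLp.coeFn_toLp _
    have hga : MemLp g (ENNReal.ofReal a) lam := g.memLp_of_isFiniteMeasure _ _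
    have hy'a : MemLp y' (ENNReal.ofReal a) lam := hga.ae_eq hy'1.symm
    set w : L b := y' + zm with hw
    have hw1 : w =ᵐ[lam] ⇑g + Aᶜ.indicator z :=
      (Lp.coeFn_add y' zm).trans (hy'1.add hzm1)
    have hwa : MemLp w (ENNReal.ofReal a) lam := (hga.add (hzbd _)).ae_eq hw1.symm
    have e1 : eLpNorm (y - y' : L b) (ENNReal.ofReal b) lam ≤ δ := by
      rw [eLpNorm_congr_ae ((Lp.coeFn_sub y y').trans
        ((Filter.EventuallyEq.refl (ae lam) ⇑y).sub hy'1))]
      exact hg.le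
    have e2 : eLpNorm (x - w : L b) (ENNReal.ofReal b) lam ≤
        eLpNorm (A.indicator z) (ENNReal.ofReal b) lam + δ := by
      have h3 : ⇑(x - w) =ᵐ[lam] A.indicator z + ⇑(y - y') := by
        filter_upwards [Lp.coeFn_sub x w, Lp.coeFn_sub x y, Lp.coeFn_sub y y', hw1, hzm1, hy'1]
          with ω h4 h5 h6 h7 h8 h9
        rw [h4, Pi.sub_apply, h7, Pi.add_apply, Pi.add_apply, h6, Pi.sub_apply, h9]
        have h10 : A.indicator z ω + Aᶜ.indicator z ω = z ω := by
          rw [← Pi.add_apply, indicator_self_add_compl]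
        have h11 : z ω = x ω - y ω := by
          rw [hz, h5, Pi.sub_apply]
        linear_combination -h11 - h10
      rw [eLpNorm_congr_ae h3]
      refine (eLpNorm_add_le ?_ ?_ hpb).trans ?_
      · exact (hzm.indicator hAm).aestronglyMeasurable
      · exact Lp.aestronglyMeasurable _
      · gcongr
    have e3 : eLpNorm (w - y' : L b) (ENNReal.ofReal a) lam =
        eLpNorm (Aᶜ.indicator z) (ENNReal.ofReal a) lam := by
      apply eLpNorm_congr_ae
      have : w - y' = zm := by rw [hw]; abel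
      rw [this]
      exact hzm1
    have f1 : eLpNorm (U x - U w : L b) (ENNReal.ofReal b) lam ≤
        M * (eLpNorm (A.indicator z) (ENNReal.ofReal b) lam + δ) :=
      (h0.2 x w (Lp.memLp x) (Lp.memLp w)).trans (by gcongr)
    have f2 : eLpNorm (U y' - U y : L b) (ENNReal.ofReal b) lam ≤ M * δ := by
      have h12 := h0.2 y y' (Lp.memLp y) (Lp.memLp y')
      have h13 : ⇑(U y' - U y) =ᵐ[lam] -⇑(U y - U y') := by
        filter_upwards [Lp.coeFn_sub (U y') (U y), Lp.coeFn_sub (U y) (U y')] with ω h14 h15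
        rw [h14, Pi.neg_apply, h15, Pi.sub_apply, Pi.sub_apply, neg_sub]
      rw [eLpNorm_congr_ae h13, eLpNorm_neg]
      exact h12.trans (by gcongr)
    have f3 : eLpNorm (U w - U y' : L b) (ENNReal.ofReal a) lam ≤
        M * eLpNorm (Aᶜ.indicator z) (ENNReal.ofReal a) lam := by
      refine (h1.2 w y' hwa hy'a).trans ?_
      rw [e3]
      gcongr
    set g1 : L b := (U x - U w) + (U y' - U y) with hg1
    set g2 : L b := U w - U y' with hg2
    have f4 : eLpNorm g1 (ENNReal.ofReal b) lam ≤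
        M * (eLpNorm (A.indicator z) (ENNReal.ofReal b) lam + 2 * δ) := by
      rw [eLpNorm_congr_ae (Lp.coeFn_add (U x - U w) (U y' - U y))]
      refine (eLpNorm_add_le (Lp.aestronglyMeasurable _) (Lp.aestronglyMeasurable _) hpb).trans ?_
      refine (add_le_add f1 f2).trans (le_of_eq ?_)
      ring
    have hsum : ⇑(U x - U y) =ᵐ[lam] ⇑g1 + ⇑g2 := by
      have : U x - U y = g1 + g2 := by rw [hg1, hg2]; abel
      rw [this]
      exact Lp.coeFn_add _ _
    calc lam {ω | t < ‖(U x - U y : L b) ω‖}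
        ≤ lam ({ω | t / 2 ≤ ‖g1 ω‖} ∪ {ω | t / 2 ≤ ‖g2 ω‖}) := by
          apply measure_mono_ae
          filter_upwards [hsum] with ω hω hlt
          have hlt' : t < ‖(U x - U y : L b) ω‖ := hlt
          rw [hω, Pi.add_apply] at hlt'
          by_contra hcon
          have hcon' : ¬ (t / 2 ≤ ‖g1 ω‖ ∨ t / 2 ≤ ‖g2 ω‖) := hcon
          push Not at hcon'
          have := norm_add_le (g1 ω) (g2 ω)
          linarith [hcon'.1, hcon'.2]
      _ ≤ lam {ω | t / 2 ≤ ‖g1 ω‖} + lam {ω | t / 2 ≤ ‖g2 ω‖} := measure_union_le _ _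
      _ ≤ _ := by
          refine add_le_add ?_ ?_
          · refine (chebyshev b hb0 g1 (Lp.aestronglyMeasurable _) t ht).trans ?_
            gcongr
          · refine (chebyshev a ha0 g2 (Lp.aestronglyMeasurable _) t ht).trans ?_
            gcongr
  -- let the error tend to zero
  have hcont : Continuous (fun δ : ℝ≥0∞ => ENNReal.ofReal ((2 / t) ^ b) *
        (M * (eLpNorm (A.indicator z) (ENNReal.ofReal b) lam + 2 * δ)) ^ b +
      ENNReal.ofReal ((2 / t) ^ a) *
        (M * eLpNorm (Aᶜ.indicator z) (ENNReal.ofReal a) lam) ^ a) := by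
    refine Continuous.add ?_ continuous_const
    refine (ENNReal.continuous_const_mul ENNReal.ofReal_ne_top).comp ?_
    refine (ENNReal.continuous_rpow_const).comp ?_
    refine (ENNReal.continuous_const_mul ENNReal.coe_ne_top).comp ?_
    exact continuous_const.add (ENNReal.continuous_const_mul (by norm_num))
  have hlim := (hcont.tendsto 0).mono_left (nhdsWithin_le_nhds (s := Ioi 0))
  have hfinal := ge_of_tendsto hlim (by
    filter_upwards [self_mem_nhdsWithin] with δ hδ'
    exact hδ δ hδ')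
  simpa using hfinal

theorem eLpNorm_eq (c : ℝ) (hc : 0 < c) (f : ℝ → ℂ) :
    eLpNorm f (ENNReal.ofReal c) lam = (∫⁻ ω, ENNReal.ofReal (‖f ω‖ ^ c) ∂lam) ^ (1 / c) := by
  rw [eLpNorm_eq_lintegral_rpow_enorm_toReal (by simpa using hc) ENNReal.ofReal_ne_top,
    ENNReal.toReal_ofReal hc.le]
  congr 1
  refine lintegral_congr fun ω => ?_
  rw [← ofReal_norm, ENNReal.ofReal_rpow_of_nonneg (norm_nonneg _) hc.le]

theorem lipschitz_all (b c a : ℝ) (hb : 1 ≤ b) (hbc : b < c) (hca : c < a) (U : L b → L b)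
    (M₀ M₁ : ℝ≥0) (h0 : LipschitzIn U b M₀) (h1 : LipschitzIn U a M₁) (x y : L b) :
    eLpNorm (U x - U y : L b) (ENNReal.ofReal c) lam ≤
      ((2 * (c * (1 / (c - b) + 1 / (a - c))) ^ (1 / c)).toNNReal * max M₀ M₁ : ℝ≥0) *
        eLpNorm (x - y : L b) (ENNReal.ofReal c) lam := by
  have hb0 : 0 < b := by linarith
  have hc0 : 0 < c := by linarith
  have ha0 : 0 < a := by linarith
  set M := max M₀ M₁ with hMdef
  set K : ℝ := c * (1 / (c - b) + 1 / (a - c)) with hK
  have hK0 : 0 ≤ K := by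
    have h2 : 0 < c - b := by linarith
    have h3 : 0 < a - c := by linarith
    positivity
  rcases eq_or_ne M 0 with hM | hM
  · -- `U` is constant
    have hM0 : M₀ = 0 := by
      have : M₀ ≤ M := le_max_left _ _
      rw [hM] at this
      exact le_antisymm this bot_le
    have h2 := h0.2 x y (Lp.memLp x) (Lp.memLp y)
    rw [hM0, ENNReal.coe_zero, zero_mul] at h2
    have h3 : eLpNorm (U x - U y : L b) (ENNReal.ofReal b) lam = 0 := le_antisymm h2 bot_le
    have h4 : (U x - U y : L b) =ᵐ[lam] 0 := by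
      rw [eLpNorm_eq_zero_iff (Lp.aestronglyMeasurable _) (by simpa using hb0)] at h3
      exact h3
    rw [eLpNorm_congr_ae h4, eLpNorm_zero]
    exact bot_le
  have hM' : 0 < M := pos_iff_ne_zero.2 hM
  have hMr : (0 : ℝ) < M := hM'
  have hmain := core lam b c a hb0 hbc hca (fun ω => ‖(U x - U y : L b) ω‖)
    (fun ω => 2 * M * ‖(x - y : L b) ω‖) (fun _ => norm_nonneg _) (fun _ => by positivity)
    (Lp.aestronglyMeasurable _).norm.aemeasurable
    ((Lp.stronglyMeasurable (x - y)).measurable.norm.const_mul _)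
    (fun t ht => key b a hb (hbc.trans hca) U M₀ M₁ M h0 h1 (le_max_left _ _) (le_max_right _ _)
      hM' x y t ht)
  have h5 : ∫⁻ ω, ENNReal.ofReal ((2 * M * ‖(x - y : L b) ω‖) ^ c) ∂lam =
      ENNReal.ofReal ((2 * M) ^ c) * ∫⁻ ω, ENNReal.ofReal (‖(x - y : L b) ω‖ ^ c) ∂lam := by
    rw [← lintegral_const_mul' _ _ ENNReal.ofReal_ne_top]
    refine lintegral_congr fun ω => ?_
    rw [← ENNReal.ofReal_mul (by positivity), Real.mul_rpow (by positivity) (norm_nonneg _)]
  rw [h5] at hmain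
  rw [eLpNorm_eq c hc0, eLpNorm_eq c hc0]
  have h6 := ENNReal.rpow_le_rpow hmain (by positivity : 0 ≤ 1 / c)
  refine h6.trans (le_of_eq ?_)
  rw [ENNReal.mul_rpow_of_nonneg _ _ (by positivity), ENNReal.mul_rpow_of_nonneg _ _
    (by positivity), ENNReal.ofReal_rpow_of_nonneg hK0 (by positivity),
    ENNReal.ofReal_rpow_of_nonneg (by positivity) (by positivity), ← Real.rpow_mul
    (by positivity), mul_one_div_cancel hc0.ne', Real.rpow_one, ← mul_assoc,
    ← ENNReal.ofReal_mul (by positivity), ENNReal.coe_mul]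
  congr 1
  rw [← ENNReal.ofReal_coe_nnreal (p := M)]
  change _ = ENNReal.ofReal _ * _
  rw [← ENNReal.ofReal_mul (by positivity)]
  congr 1
  ring

end estimate

/-- For all `1 ≤ β < γ < α < ∞` the space `L^γ[0,1]` is a Lipschitz interpolation space, with
some constant `C > 0`, between `L^β[0,1]` and `L^α[0,1]`. -/
theorem result (β γ α : ℝ) (hβ : 1 ≤ β) (hβγ : β < γ) (hγα : γ < α) :
    ∃ C : ℝ≥0, 0 < C ∧ IsLipschitzInterpolationSpace β γ α C := by
  have h2 : 0 < γ - β := by linarith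
  have h3 : 0 < α - γ := by linarith
  have hγ0 : 0 < γ := by linarith
  refine ⟨(2 * (γ * (1 / (γ - β) + 1 / (α - γ))) ^ (1 / γ)).toNNReal, ?_, ?_⟩
  · rw [Real.toNNReal_pos]
    positivity
  intro U M₀ M₁ h0 h1
  refine ⟨fun x hx => ?_, fun x y _ _ => lipschitz_all β γ α hβ hβγ hγα U M₀ M₁ h0 h1 x y⟩
  have hzero : ∀ p : ℝ≥0∞, MemLp (0 : L β) p lam := fun p =>
    (MemLp.zero (p := p) (μ := lam)).ae_eq (Lp.coeFn_zero ℂ (ENNReal.ofReal β) lam).symm
  have h4 : MemLp (U 0) (ENNReal.ofReal γ) lam :=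
    (h1.1 0 (hzero _)).mono_exponent (ENNReal.ofReal_le_ofReal hγα.le)
  have h5 : MemLp (U x - U 0 : L β) (ENNReal.ofReal γ) lam := by
    refine ⟨Lp.aestronglyMeasurable _, ?_⟩
    refine (lipschitz_all β γ α hβ hβγ hγα U M₀ M₁ h0 h1 x 0).trans_lt ?_
    refine ENNReal.mul_lt_top ENNReal.coe_lt_top ?_
    rw [sub_zero]
    exact hx.2
  have h6 : ⇑(U x) =ᵐ[lam] ⇑(U x - U 0) + ⇑(U 0) := by
    filter_upwards [Lp.coeFn_sub (U x) (U 0)] with ω hω
    rw [Pi.add_apply, hω, Pi.sub_apply, sub_add_cancel]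
  exact (h5.add h4).ae_eq h6.symm

end Pool.Agent.Results.MP_6e3e44_an.LipschitzInterpolation
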